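import Mathlib
import Pool.Agent.W58.DS.Stm

/-! LAUR and VAL -/

set_option autoImplicit false

namespace Pool.Agent.W407.DS.Laur

open Pool.Agent.W58.DS Polynomial

theorem main : S_LAUR := by
  intro A
  refine ⟨C (1 / 2) * (X ^ A.natDegree * A +
    ∑ i ∈ Finset.range (A.natDegree + 1), C ((starRingEnd ℂ) (A.coeff i)) * X ^ (A.natDegree - i)),
    fun z hz => ?_⟩
  have hzz : z * (starRingEnd ℂ) z = 1 := by
    rw [Complex.mul_conj, Complex.normSq_eq_norm_sq, hz]; norm_num
  have h1 : ∀ i ∈ Finset.range (A.natDegree + 1),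
      z ^ (A.natDegree - i) = z ^ A.natDegree * (starRingEnd ℂ) z ^ i := by
    intro i hi
    have hi' : i ≤ A.natDegree := Nat.lt_succ_iff.1 (Finset.mem_range.1 hi)
    have e : z ^ A.natDegree = z ^ (A.natDegree - i) * z ^ i := by
      rw [← pow_add, Nat.sub_add_cancel hi']
    rw [e, mul_assoc, ← mul_pow, hzz, one_pow, mul_one]
  have h2 : (starRingEnd ℂ) (A.eval z) =
      ∑ i ∈ Finset.range (A.natDegree + 1), (starRingEnd ℂ) (A.coeff i) * (starRingEnd ℂ) z ^ i := by
    rw [Polynomial.eval_eq_sum_range, map_sum]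
    refine Finset.sum_congr rfl fun i _ => ?_
    rw [map_mul, map_pow]
  rw [Complex.re_eq_add_conj, h2]
  simp only [eval_mul, eval_add, eval_C, eval_pow, eval_X, eval_finset_sum]
  have h3 : ∑ i ∈ Finset.range (A.natDegree + 1),
      (starRingEnd ℂ) (A.coeff i) * z ^ (A.natDegree - i) =
      z ^ A.natDegree * ∑ i ∈ Finset.range (A.natDegree + 1),
        (starRingEnd ℂ) (A.coeff i) * (starRingEnd ℂ) z ^ i := by
    rw [Finset.mul_sum]
    refine Finset.sum_congr rfl fun i hi => ?_
    rw [h1 i hi]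
    ring
  rw [h3]
  ring

theorem val : S_VAL := by
  intro A K M n P hn hK
  have hd : ∀ w : ℂ, w * (divX P).eval w = P.eval w - P.eval 0 := by
    intro w
    have := congrArg (Polynomial.eval w) (divX_mul_X_add P)
    simp only [eval_add, eval_mul, eval_X, eval_C] at this
    rw [← this, coeff_zero_eq_eval_zero]
    ring
  constructor
  · unfold md
    simp only [eval_mul, eval_pow, eval_X]
    rw [zero_pow (by omega)]
    ring
  · intro z hz
    unfold md
    simp only [eval_mul, eval_pow, eval_X, eval_comp]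
    rw [← hd (z ^ (M + 2 * n - 1)), hK z hz]
    have e : z ^ (M + 2 * n - 1) = z ^ M * z ^ (2 * n - 1) := by
      rw [← pow_add]
      congr 1
      omega
    rw [e]
    ring

end Pool.Agent.W407.DS.Laur
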